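import Mathlib
import Pool.Agent.H31.Interl

set_option autoImplicit false

namespace Pool.Agent.Results.MP_9d2565_co.Full
open Polynomial

/-- Descent positions `k ∈ {1, …, n-1}` (1-indexed): the `k`-th letter (index `k-1` of `Fin n`)
is larger than the `(k+1)`-st letter (index `k`). -/
def DES {n : ℕ} (π : Equiv.Perm (Fin n)) : Finset ℕ :=
  (Finset.Icc 1 (n - 1)).filter
    (fun k => ∃ a b : Fin n, a.val + 1 = k ∧ b.val = k ∧ π b < π a)

/-- The multivariate Eulerian polynomial `E_n` in the variables `x_1, x_2, …`. -/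
noncomputable def E (n : ℕ) : MvPolynomial ℕ ℝ :=
  ∑ π : Equiv.Perm (Fin n), ∏ k ∈ DES π, MvPolynomial.X k

/-- `e_n(t) = E_n(λ_1 t, …, λ_{n-1} t)`. -/
noncomputable def e (lam : ℕ → ℝ) (n : ℕ) : ℝ[X] :=
  MvPolynomial.aeval (fun k => C (lam k) * X) (E n)

/-- The real roots of `f`, with multiplicity, in decreasing order. -/
noncomputable def decRoots (f : ℝ[X]) : List ℝ := f.roots.sort (· ≥ ·)

/-- `f ⪯ g` for `deg g = deg f + 1`: both nonzero, all roots real and `≤ 0`, and
`g_1 ≥ f_1 ≥ g_2 ≥ ⋯ ≥ f_m ≥ g_{m+1}`. -/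
def Interlaces (f g : ℝ[X]) : Prop :=
  f ≠ 0 ∧ g ≠ 0 ∧ f.roots.card = f.natDegree ∧ g.roots.card = g.natDegree ∧
    g.natDegree = f.natDegree + 1 ∧ (∀ r ∈ f.roots, r ≤ 0) ∧ (∀ r ∈ g.roots, r ≤ 0) ∧
    ∀ i < f.natDegree, (decRoots f).getD i 0 ≤ (decRoots g).getD i 0 ∧
      (decRoots g).getD (i + 1) 0 ≤ (decRoots f).getD i 0

lemma DES_eq {n : ℕ} (π : Equiv.Perm (Fin (n + 1))) :
    DES π = (Finset.univ.filter (fun k : Fin n => π k.succ < π k.castSucc)).image
      (fun k => k.val + 1) := by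
  ext k
  simp only [DES, Finset.mem_filter, Finset.mem_Icc, Finset.mem_image, Finset.mem_univ, true_and]
  constructor
  · rintro ⟨⟨h1, h2⟩, a, b, ha, hb, hab⟩
    refine ⟨⟨a.val, by omega⟩, ?_, ha⟩
    have e1 : (⟨a.val, by omega⟩ : Fin n).succ = b := Fin.ext (by simp; omega)
    have e2 : (⟨a.val, by omega⟩ : Fin n).castSucc = a := Fin.ext (by simp)
    rw [e1, e2]
    exact hab
  · rintro ⟨a, ha, rfl⟩
    exact ⟨⟨by omega, by have := a.2; omega⟩, a.castSucc, a.succ, by simp, by simp, ha⟩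

lemma prod_DES {M : Type} [CommMonoid M] (c : ℕ → M) {n : ℕ} (π : Equiv.Perm (Fin (n + 1))) :
    ∏ k ∈ DES π, c k = ∏ k : Fin n, if π k.succ < π k.castSucc then c (k.val + 1) else 1 := by
  rw [DES_eq, Finset.prod_image, Finset.prod_filter]
  intro a _ b _ h
  exact Fin.ext (by simpa using h)

lemma e_eq (lam : ℕ → ℝ) (n : ℕ) :
    e lam n = ∑ π : Equiv.Perm (Fin n), ∏ k ∈ DES π, (C (lam k) * X) := by
  simp [e, E, map_sum, map_prod]

/-- append the last letter `i`. -/
def extP {n : ℕ} (i : Fin (n + 1)) (σ : Equiv.Perm (Fin n)) : Equiv.Perm (Fin (n + 1)) :=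
  (finSuccEquiv' (Fin.last n)).trans ((Equiv.optionCongr σ).trans (finSuccEquiv' i).symm)

lemma extP_last {n : ℕ} (i : Fin (n + 1)) (σ : Equiv.Perm (Fin n)) :
    extP i σ (Fin.last n) = i := by
  simp [extP]

lemma extP_cast {n : ℕ} (i : Fin (n + 1)) (σ : Equiv.Perm (Fin n)) (k : Fin n) :
    extP i σ k.castSucc = i.succAbove (σ k) := by
  have : finSuccEquiv' (Fin.last n) k.castSucc = some k := by
    rw [← Fin.succAbove_last_apply, finSuccEquiv'_succAbove]
  simp [extP, this]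

lemma extP_bij (n : ℕ) : Function.Bijective
    (fun p : Fin (n + 1) × Equiv.Perm (Fin n) => extP p.1 p.2) := by
  rw [Fintype.bijective_iff_injective_and_card]
  constructor
  · rintro ⟨i, σ⟩ ⟨j, τ⟩ h
    simp only at h
    have h1 : i = j := by rw [← extP_last i σ, h, extP_last]
    subst h1
    have h2 : σ = τ := by
      ext k
      have := extP_cast i σ k
      rw [h, extP_cast] at this
      rw [Fin.succAbove_right_injective this]
    rw [h2]
  · simp [Fintype.card_perm, Nat.factorial_succ]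

lemma sum_perm {M : Type} [AddCommMonoid M] {n : ℕ} (f : Equiv.Perm (Fin (n + 1)) → M) :
    ∑ π, f π = ∑ i : Fin (n + 1), ∑ σ : Equiv.Perm (Fin n), f (extP i σ) := by
  rw [← (extP_bij n).sum_comp f, Fintype.sum_prod_type]

/-- weight -/
noncomputable def w (c : ℕ → ℂ) {n : ℕ} (π : Equiv.Perm (Fin n)) : ℂ := ∏ k ∈ DES π, c k

lemma w_ext (c : ℕ → ℂ) {n : ℕ} (i : Fin (n + 2)) (π : Equiv.Perm (Fin (n + 1))) :
    w c (extP i π) = w c π * (if i.val ≤ (π (Fin.last n)).val then c (n + 1) else 1) := by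
  unfold w
  rw [prod_DES, prod_DES, Fin.prod_univ_castSucc]
  congr 1
  · refine Finset.prod_congr rfl (fun k _ => ?_)
    rw [Fin.succ_castSucc, extP_cast, extP_cast]
    simp only [Fin.succAbove_lt_succAbove_iff, Fin.val_castSucc]
  · rw [Fin.succ_last, extP_last, extP_cast]
    simp only [Fin.lt_succAbove_iff_le_castSucc, Fin.val_last, Fin.le_def, Fin.val_castSucc]

/-- refined sums -/
noncomputable def T (c : ℕ → ℂ) (n : ℕ) (i : Fin (n + 1)) : ℂ :=
  ∑ σ : Equiv.Perm (Fin n), w c (extP i σ)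

lemma T_succ (c : ℕ → ℂ) (n : ℕ) (i : Fin (n + 2)) :
    T c (n + 1) i = ∑ j : Fin (n + 1), T c n j * (if i.val ≤ j.val then c (n + 1) else 1) := by
  unfold T
  rw [sum_perm]
  refine Finset.sum_congr rfl (fun j _ => ?_)
  rw [Finset.sum_mul]
  refine Finset.sum_congr rfl (fun σ _ => ?_)
  rw [w_ext, extP_last]

/-- the bilinear half-plane relation -/
def S (z a b : ℂ) : Prop :=
  0 ≤ (b * (starRingEnd ℂ) a).im ∧ 0 ≤ (z * a * (starRingEnd ℂ) b).im

lemma S_refl {z : ℂ} (hz : 0 < z.im) (a : ℂ) : S z a a := by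
  constructor
  · simp [Complex.mul_conj]
  · rw [mul_assoc, Complex.mul_conj]
    simp only [Complex.mul_im, Complex.ofReal_re, Complex.ofReal_im, mul_zero, zero_add]
    exact mul_nonneg hz.le (Complex.normSq_nonneg a)

lemma S_zl (z b : ℂ) : S z 0 b := by simp [S]
lemma S_zr (z a : ℂ) : S z a 0 := by simp [S]

lemma S_addl {z a a' b : ℂ} (h : S z a b) (h' : S z a' b) : S z (a + a') b := by
  constructor
  · rw [map_add, mul_add, Complex.add_im]; exact add_nonneg h.1 h'.1
  · rw [mul_add, add_mul, Complex.add_im]; exact add_nonneg h.2 h'.2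

lemma S_addr {z a b b' : ℂ} (h : S z a b) (h' : S z a b') : S z a (b + b') := by
  constructor
  · rw [add_mul, Complex.add_im]; exact add_nonneg h.1 h'.1
  · rw [map_add, mul_add, Complex.add_im]; exact add_nonneg h.2 h'.2

lemma S_sum {ι κ : Type} (z : ℂ) (s : Finset ι) (t : Finset κ) (f : ι → ℂ) (g : κ → ℂ)
    (h : ∀ i j, S z (f i) (g j)) : S z (∑ i ∈ s, f i) (∑ j ∈ t, g j) := by
  refine Finset.sum_induction f (fun a => S z a (∑ j ∈ t, g j)) (fun _ _ => S_addl)
    (S_zl _ _) (fun i _ => ?_)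
  exact Finset.sum_induction g (fun b => S z (f i) b) (fun _ _ => S_addr) (S_zr _ _)
    (fun j _ => h i j)

lemma S_mul {z a b : ℂ} (l : ℝ) (hl : 0 ≤ l) (h : S z a b) : S z b (a * ((l : ℂ) * z)) := by
  constructor
  · have e1 : (a * ((l : ℂ) * z) * (starRingEnd ℂ) b).im =
        l * (z * a * (starRingEnd ℂ) b).im := by
      simp only [Complex.mul_im, Complex.mul_re, Complex.ofReal_re, Complex.ofReal_im,
        Complex.conj_re, Complex.conj_im]
      ring
    rw [e1]
    exact mul_nonneg hl h.2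
  · have e1 : (z * b * (starRingEnd ℂ) (a * ((l : ℂ) * z))).im =
        l * (z.re ^ 2 + z.im ^ 2) * (b * (starRingEnd ℂ) a).im := by
      simp only [map_mul, Complex.mul_im, Complex.mul_re, Complex.ofReal_re, Complex.ofReal_im,
        Complex.conj_re, Complex.conj_im]
      ring
    rw [e1]
    exact mul_nonneg (by positivity) h.1

lemma T_S (lam : ℕ → ℝ) (hlam : ∀ k, 1 ≤ k → 0 < lam k) (z : ℂ) (hz : 0 < z.im) (n : ℕ) :
    ∀ i i' : Fin (n + 1), i'.val ≤ i.val →
      S z (T (fun k => (lam k : ℂ) * z) n i) (T (fun k => (lam k : ℂ) * z) n i') := by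
  induction n with
  | zero =>
    intro i i' _
    have : i = i' := Fin.ext (by omega)
    rw [this]
    exact S_refl hz _
  | succ n ih =>
    intro i i' hi
    set t := T (fun k => (lam k : ℂ) * z) n with ht
    set l := lam (n + 1) with hl
    have hl0 : 0 ≤ l := (hlam (n + 1) (by omega)).le
    set U := ∑ j : Fin (n + 1), if j.val < i'.val then t j else 0 with hU
    set V := ∑ j : Fin (n + 1), if i'.val ≤ j.val ∧ j.val < i.val then t j else 0 with hV
    set W := ∑ j : Fin (n + 1), if i.val ≤ j.val then t j else 0 with hW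
    have e1 : T (fun k => (lam k : ℂ) * z) (n + 1) i = (U + W * ((l : ℂ) * z)) + V := by
      rw [T_succ, hU, hV, hW, Finset.sum_mul, ← Finset.sum_add_distrib, ← Finset.sum_add_distrib]
      refine Finset.sum_congr rfl (fun j _ => ?_)
      split_ifs <;> first | (exfalso; omega) | simp [ht, hl]
    have e2 : T (fun k => (lam k : ℂ) * z) (n + 1) i' =
        (U + W * ((l : ℂ) * z)) + V * ((l : ℂ) * z) := by
      rw [T_succ, hU, hV, hW, Finset.sum_mul, Finset.sum_mul, ← Finset.sum_add_distrib,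
        ← Finset.sum_add_distrib]
      refine Finset.sum_congr rfl (fun j _ => ?_)
      split_ifs <;> first | (exfalso; omega) | simp [ht, hl]
    have hVU : S z V U := S_sum z _ _ _ _ (fun j j' => by
      split_ifs with h1 h2
      · exact ih j j' (by omega)
      · exact S_zr _ _
      · exact S_zl _ _
      · exact S_zl _ _)
    have hWV : S z W V := S_sum z _ _ _ _ (fun j j' => by
      split_ifs with h1 h2
      · exact ih j j' (by omega)
      · exact S_zr _ _
      · exact S_zl _ _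
      · exact S_zl _ _)
    have hVX : S z V (U + W * ((l : ℂ) * z)) := S_addr hVU (S_mul l hl0 hWV)
    rw [e1, e2]
    exact S_addl (S_addr (S_refl hz _) (S_mul l hl0 hVX))
      (S_addr hVX (S_mul l hl0 (S_refl hz _)))

lemma aeval_e (lam : ℕ → ℝ) (z : ℂ) (n : ℕ) :
    aeval z (e lam (n + 1)) = ∑ i : Fin (n + 1), T (fun k => (lam k : ℂ) * z) n i := by
  rw [e_eq, map_sum, sum_perm]
  refine Finset.sum_congr rfl (fun i _ => ?_)
  unfold T w
  refine Finset.sum_congr rfl (fun σ _ => ?_)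
  simp [map_prod]

lemma step (lam : ℕ → ℝ) (hlam : ∀ k, 1 ≤ k → 0 < lam k) (z : ℂ) (hz : 0 < z.im) (n : ℕ)
    (h : aeval z (e lam (n + 1)) ≠ 0) :
    0 < (aeval z (e lam (n + 2)) * (starRingEnd ℂ) (aeval z (e lam (n + 1)))).im := by
  have hlast : T (fun k => (lam k : ℂ) * z) (n + 1) (Fin.last (n + 1)) =
      aeval z (e lam (n + 1)) := by
    rw [T_succ, aeval_e]
    refine Finset.sum_congr rfl (fun j _ => ?_)
    rw [if_neg (by have := j.2; simp only [Fin.val_last]; omega), mul_one]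
  have hzero : T (fun k => (lam k : ℂ) * z) (n + 1) 0 =
      aeval z (e lam (n + 1)) * ((lam (n + 1) : ℂ) * z) := by
    rw [T_succ, aeval_e, Finset.sum_mul]
    refine Finset.sum_congr rfl (fun j _ => ?_)
    rw [if_pos (by simp)]
  rw [aeval_e lam z (n + 1), Finset.sum_mul, Complex.im_sum]
  refine Finset.sum_pos' (fun i _ => ?_) ⟨0, Finset.mem_univ _, ?_⟩
  · rw [← hlast]
    exact (T_S lam hlam z hz (n + 1) (Fin.last (n + 1)) i
      (by have := i.2; simp only [Fin.val_last]; omega)).1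
  · rw [hzero]
    set a := aeval z (e lam (n + 1))
    have e1 : (a * ((lam (n + 1) : ℂ) * z) * (starRingEnd ℂ) a).im =
        lam (n + 1) * z.im * Complex.normSq a := by
      simp only [Complex.mul_im, Complex.mul_re, Complex.ofReal_re, Complex.ofReal_im,
        Complex.conj_re, Complex.conj_im, Complex.normSq_apply]
      ring
    rw [e1]
    have := hlam (n + 1) (by omega)
    have := Complex.normSq_pos.mpr h
    positivity

lemma e_ne (lam : ℕ → ℝ) (hlam : ∀ k, 1 ≤ k → 0 < lam k) (z : ℂ) (hz : 0 < z.im) (n : ℕ) :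
    aeval z (e lam (n + 1)) ≠ 0 := by
  induction n with
  | zero => simp [e_eq, DES]
  | succ n ih =>
    intro h
    have := step lam hlam z hz n ih
    rw [h] at this
    simp at this

lemma DES_pos {n : ℕ} (π : Equiv.Perm (Fin n)) (k : ℕ) (hk : k ∈ DES π) : 1 ≤ k :=
  (Finset.mem_Icc.mp (Finset.mem_filter.mp hk).1).1

lemma DES_card {n : ℕ} (π : Equiv.Perm (Fin (n + 1))) : (DES π).card ≤ n := by
  have := Finset.card_filter_le (Finset.Icc 1 (n + 1 - 1))
    (fun k => ∃ a b : Fin (n + 1), a.val + 1 = k ∧ b.val = k ∧ π b < π a)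
  simpa [DES] using this

lemma DES_rev (n : ℕ) : (DES (Fin.revPerm : Equiv.Perm (Fin (n + 1)))).card = n := by
  rw [DES_eq, Finset.card_image_of_injective _ (fun a b h => Fin.ext (by simpa using h)),
    Finset.filter_true_of_mem]
  · simp
  · intro k _
    simp only [Fin.revPerm_apply, Fin.rev_lt_rev]
    exact Fin.castSucc_lt_succ

lemma e_mono (lam : ℕ → ℝ) (n : ℕ) :
    e lam n = ∑ π : Equiv.Perm (Fin n), C (∏ k ∈ DES π, lam k) * X ^ (DES π).card := by
  rw [e_eq]
  refine Finset.sum_congr rfl (fun π _ => ?_)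
  rw [Finset.prod_mul_distrib, Finset.prod_const, map_prod]

lemma e_deg (lam : ℕ → ℝ) (hlam : ∀ k, 1 ≤ k → 0 < lam k) (n : ℕ) :
    (e lam (n + 1)).natDegree = n ∧ 0 < (e lam (n + 1)).leadingCoeff := by
  have hp : ∀ π : Equiv.Perm (Fin (n + 1)), 0 < ∏ k ∈ DES π, lam k :=
    fun π => Finset.prod_pos (fun k hk => hlam k (DES_pos π k hk))
  have h1 : (e lam (n + 1)).natDegree ≤ n := by
    rw [e_mono]
    refine natDegree_sum_le_of_forall_le _ _ (fun π _ => ?_)
    exact (natDegree_C_mul_X_pow_le _ _).trans (DES_card π)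
  have h2 : 0 < (e lam (n + 1)).coeff n := by
    rw [e_mono, finsetSum_coeff]
    refine Finset.sum_pos' (fun π _ => ?_) ⟨Fin.revPerm, Finset.mem_univ _, ?_⟩
    · rw [coeff_C_mul_X_pow]
      split_ifs
      · exact (hp π).le
      · exact le_rfl
    · rw [coeff_C_mul_X_pow, if_pos (DES_rev n).symm]
      exact hp _
  have h3 : (e lam (n + 1)).natDegree = n := natDegree_eq_of_le_of_coeff_ne_zero h1 h2.ne'
  refine ⟨h3, ?_⟩
  rw [leadingCoeff, h3]
  exact h2

lemma e_roots (lam : ℕ → ℝ) (hlam : ∀ k, 1 ≤ k → 0 < lam k) (n : ℕ) :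
    ∀ r ∈ (e lam n).roots, r ≤ 0 := by
  intro r hr
  by_contra h
  push Not at h
  have h0 := (mem_roots'.mp hr).2
  rw [IsRoot.def, e_mono, eval_finsetSum] at h0
  refine (Finset.sum_pos (fun π _ => ?_) Finset.univ_nonempty).ne' h0
  rw [eval_mul, eval_C, eval_pow, eval_X]
  have : 0 < ∏ k ∈ DES π, lam k := Finset.prod_pos (fun k hk => hlam k (DES_pos π k hk))
  positivity

theorem result (lam : ℕ → ℝ) (hlam : ∀ k, 1 ≤ k → 0 < lam k) (n : ℕ) (hn : 2 ≤ n) :
    Interlaces (e lam (n - 1)) (e lam n) := by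
  obtain ⟨m, rfl⟩ : ∃ m, n = m + 2 := ⟨n - 2, by omega⟩
  rw [show m + 2 - 1 = m + 1 by omega]
  obtain ⟨d1, l1⟩ := e_deg lam hlam m
  obtain ⟨d2, l2⟩ := e_deg lam hlam (m + 1)
  have hd : (e lam (m + 2)).natDegree = (e lam (m + 1)).natDegree + 1 := by rw [d1, d2]
  obtain ⟨c1, c2, c3⟩ := H31.Interl.chain_poly (e lam (m + 1)) (e lam (m + 2)) l1 l2 hd
    (fun z hz => step lam hlam z hz m (e_ne lam hlam z hz m))
  exact ⟨leadingCoeff_ne_zero.mp l1.ne', leadingCoeff_ne_zero.mp l2.ne', c1, c2, hd,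
    e_roots lam hlam _, e_roots lam hlam _, c3⟩

end Pool.Agent.Results.MP_9d2565_co.Full
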